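import Mathlib

/-!
# Bernoulli percolation on the edges of Z^d versus uniform labels (MP_e167eb)
-/

set_option autoImplicit false
open MeasureTheory Filter Topology ProbabilityTheory

namespace Pool.OWN.E167

/-! ## Measurability in the space of sets of edges -/

section Meas

variable {V : Type} [Countable V]

omit [Countable V] in
theorem meas_adj (a b : V) :
    MeasurableSet {η : Set (Sym2 V) | (SimpleGraph.fromEdgeSet η).Adj a b} := by
  have h : Measurable fun η : Set (Sym2 V) => (SimpleGraph.fromEdgeSet η).Adj a b := by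
    have := SimpleGraph.measurable_iff_adj.1
      (SimpleGraph.measurable_fromEdgeSet (V := V)) a b
    exact this
  exact measurableSet_setOfPred.2 h

theorem meas_walk (n : ℕ) (a b : V) :
    MeasurableSet {η : Set (Sym2 V) |
      ∃ w : (SimpleGraph.fromEdgeSet η).Walk a b, w.length = n} := by
  induction n generalizing a b with
  | zero =>
    by_cases h : a = b
    · subst h
      convert MeasurableSet.univ using 1
      ext η
      simp only [Set.mem_ofPred_eq, Set.mem_univ, iff_true]
      exact ⟨SimpleGraph.Walk.nil, rfl⟩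
    · convert MeasurableSet.empty using 1
      ext η
      simp only [Set.mem_ofPred_eq, Set.mem_empty_iff_false, iff_false]
      rintro ⟨w, hw⟩
      exact h (SimpleGraph.Walk.eq_of_length_eq_zero hw)
  | succ n ih =>
    have : {η : Set (Sym2 V) |
        ∃ w : (SimpleGraph.fromEdgeSet η).Walk a b, w.length = n + 1} =
        ⋃ c : V, {η : Set (Sym2 V) | (SimpleGraph.fromEdgeSet η).Adj a c} ∩
          {η : Set (Sym2 V) | ∃ w : (SimpleGraph.fromEdgeSet η).Walk c b, w.length = n} := by
      ext η
      simp only [Set.mem_ofPred_eq, Set.mem_iUnion, Set.mem_inter_iff]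
      constructor
      · rintro ⟨w, hw⟩
        cases w with
        | nil => simp at hw
        | cons h w' =>
          rename_i c
          exact ⟨c, h, w', by simpa using hw⟩
      · rintro ⟨c, h, w, hw⟩
        exact ⟨SimpleGraph.Walk.cons h w, by simp [hw]⟩
    rw [this]
    exact MeasurableSet.iUnion fun c => (meas_adj a c).inter (ih c b)

theorem meas_reach (a b : V) :
    MeasurableSet {η : Set (Sym2 V) | (SimpleGraph.fromEdgeSet η).Reachable a b} := by
  have : {η : Set (Sym2 V) | (SimpleGraph.fromEdgeSet η).Reachable a b} =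
      ⋃ n : ℕ, {η : Set (Sym2 V) |
        ∃ w : (SimpleGraph.fromEdgeSet η).Walk a b, w.length = n} := by
    ext η
    simp only [Set.mem_ofPred_eq, Set.mem_iUnion]
    constructor
    · rintro ⟨w⟩
      exact ⟨w.length, w, rfl⟩
    · rintro ⟨n, w, -⟩
      exact ⟨w⟩
  rw [this]
  exact MeasurableSet.iUnion fun n => meas_walk n a b

theorem meas_dist (n : ℕ) (a b : V) :
    MeasurableSet {η : Set (Sym2 V) | (SimpleGraph.fromEdgeSet η).Reachable a b ∧
      (SimpleGraph.fromEdgeSet η).dist a b = n} := by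
  have : {η : Set (Sym2 V) | (SimpleGraph.fromEdgeSet η).Reachable a b ∧
      (SimpleGraph.fromEdgeSet η).dist a b = n} =
      {η : Set (Sym2 V) | ∃ w : (SimpleGraph.fromEdgeSet η).Walk a b, w.length = n} ∩
      ⋂ m : Fin n, {η : Set (Sym2 V) |
        ∃ w : (SimpleGraph.fromEdgeSet η).Walk a b, w.length = m}ᶜ := by
    ext η
    simp only [Set.mem_ofPred_eq, Set.mem_inter_iff, Set.mem_iInter, Set.mem_compl_iff]
    constructor
    · rintro ⟨hr, hd⟩
      obtain ⟨w, hw⟩ := hr.exists_walk_length_eq_dist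
      refine ⟨⟨w, hw.trans hd⟩, fun m hm => ?_⟩
      obtain ⟨w', hw'⟩ := hm
      have := SimpleGraph.dist_le w'
      have := m.2
      omega
    · rintro ⟨⟨w, hw⟩, hm⟩
      refine ⟨⟨w⟩, ?_⟩
      have hr : (SimpleGraph.fromEdgeSet η).Reachable a b := ⟨w⟩
      obtain ⟨w', hw'⟩ := hr.exists_walk_length_eq_dist
      have h1 := SimpleGraph.dist_le w
      by_contra hne
      have hlt : (SimpleGraph.fromEdgeSet η).dist a b < n := by omega
      exact hm ⟨_, hlt⟩ ⟨w', hw'⟩
  rw [this]
  exact (meas_walk n a b).inter (MeasurableSet.iInter fun m => (meas_walk m a b).compl)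

theorem meas_inf (a : V) :
    MeasurableSet {η : Set (Sym2 V) |
      {x : V | (SimpleGraph.fromEdgeSet η).Reachable a x}.Infinite} := by
  have : {η : Set (Sym2 V) | {x : V | (SimpleGraph.fromEdgeSet η).Reachable a x}.Infinite} =
      ⋂ S : Finset V, ⋃ x : V, {η : Set (Sym2 V) | x ∉ S ∧
        (SimpleGraph.fromEdgeSet η).Reachable a x} := by
    ext η
    simp only [Set.mem_ofPred_eq, Set.mem_iInter, Set.mem_iUnion]
    constructor
    · intro h S
      obtain ⟨x, hx, hS⟩ := h.exists_notMem_finset S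
      exact ⟨x, hS, hx⟩
    · intro h hfin
      obtain ⟨x, hxS, hx⟩ := h hfin.toFinset
      exact hxS (hfin.mem_toFinset.2 hx)
  rw [this]
  refine MeasurableSet.iInter fun S => MeasurableSet.iUnion fun x => ?_
  by_cases hx : x ∈ S
  · convert MeasurableSet.empty using 1
    ext η
    simp [hx]
  · convert meas_reach a x using 1
    ext η
    simp [hx]

end Meas

/-! ## The lattice -/

/-- nearest neighbour graph of `Z^d` -/
def lat (d : ℕ) : SimpleGraph (Fin d → ℤ) where
  Adj x y := ∑ i, |x i - y i| = 1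
  symm := ⟨fun x y h => by simpa only [abs_sub_comm] using h⟩
  loopless := ⟨fun x h => by simp at h⟩

theorem lat_adj_iff {d : ℕ} (x y : Fin d → ℤ) :
    (lat d).Adj x y ↔ (∃ i : Fin d, y = x + Pi.single i (1 : ℤ)) ∨
      (∃ i : Fin d, x = y + Pi.single i (1 : ℤ)) := by
  show ∑ i, |x i - y i| = 1 ↔ _
  constructor
  · intro h
    -- exactly one coordinate differs, by one
    have h0 : ∃ i, x i ≠ y i := by
      by_contra hc
      push Not at hc
      have : ∑ i, |x i - y i| = 0 := Finset.sum_eq_zero fun i _ => by simp [hc i]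
      omega
    obtain ⟨i, hi⟩ := h0
    have hle : |x i - y i| ≤ 1 := by
      rw [← h]
      exact Finset.single_le_sum (f := fun j => |x j - y j|) (fun j _ => abs_nonneg _)
        (Finset.mem_univ i)
    have hpos : 1 ≤ |x i - y i| := by
      have : 0 < |x i - y i| := abs_pos.2 (sub_ne_zero.2 hi)
      omega
    have hone : |x i - y i| = 1 := le_antisymm hle hpos
    have hrest : ∀ j, j ≠ i → x j = y j := by
      intro j hj
      have hsum : ∑ k ∈ Finset.univ.erase i, |x k - y k| = 0 := by
        have := Finset.add_sum_erase Finset.univ (fun k => |x k - y k|) (Finset.mem_univ i)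
        rw [h] at this
        linarith
      have := (Finset.sum_eq_zero_iff_of_nonneg (fun k _ => abs_nonneg (x k - y k))).1 hsum j
        (Finset.mem_erase.2 ⟨hj, Finset.mem_univ j⟩)
      have := abs_eq_zero.1 this
      omega
    rcases (abs_eq (by norm_num : (0 : ℤ) ≤ 1)).1 hone with h1 | h1
    · right
      refine ⟨i, funext fun j => ?_⟩
      by_cases hj : j = i
      · subst hj
        simp
        omega
      · simp [hrest j hj, hj]
    · left
      refine ⟨i, funext fun j => ?_⟩
      by_cases hj : j = i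
      · subst hj
        simp
        omega
      · simp [hrest j hj, hj]
  · rintro (⟨i, rfl⟩ | ⟨i, rfl⟩)
    · have : ∀ j, |x j - (x + Pi.single i (1 : ℤ) : Fin d → ℤ) j| = if j = i then 1 else 0 := by
        intro j
        by_cases hj : j = i
        · subst hj; simp
        · simp [hj]
      rw [Finset.sum_congr rfl fun j _ => this j]
      simp
    · have : ∀ j, |(y + Pi.single i (1 : ℤ) : Fin d → ℤ) j - y j| = if j = i then 1 else 0 := by
        intro j
        by_cases hj : j = i
        · subst hj; simp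
        · simp [hj]
      rw [Finset.sum_congr rfl fun j _ => this j]
      simp

/-- the edge with label `(x, i)` -/
def ed {d : ℕ} (q : (Fin d → ℤ) × Fin d) : Sym2 (Fin d → ℤ) :=
  s(q.1, q.1 + Pi.single q.2 (1 : ℤ))

theorem single_ne_zero {d : ℕ} (i : Fin d) : (Pi.single i (1 : ℤ) : Fin d → ℤ) ≠ 0 := by
  intro h
  have := congrFun h i
  simp at this

theorem ed_inj {d : ℕ} : Function.Injective (ed (d := d)) := by
  rintro ⟨x, i⟩ ⟨y, j⟩ h
  simp only [ed, Sym2.eq_iff] at h
  rcases h with ⟨h1, h2⟩ | ⟨h1, h2⟩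
  · subst h1
    have h3 : (Pi.single i (1 : ℤ) : Fin d → ℤ) = Pi.single j 1 := by simpa using h2
    have : i = j := by
      by_contra hne
      have := congrFun h3 i
      simp [hne] at this
    rw [this]
  · exfalso
    rw [h1] at h2
    have h3 : (Pi.single j (1 : ℤ) : Fin d → ℤ) + Pi.single i 1 = 0 := by
      have := h2
      rw [add_assoc] at this
      simpa using this
    have := congrFun h3 i
    by_cases hij : i = j
    · subst hij; simp at this
    · simp [hij] at this

theorem mem_edge_iff {d : ℕ} (e : Sym2 (Fin d → ℤ)) :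
    e ∈ (lat d).edgeSet ↔ ∃ q, ed q = e := by
  induction e using Sym2.ind with
  | _ x y =>
    rw [SimpleGraph.mem_edgeSet, lat_adj_iff]
    constructor
    · rintro (⟨i, rfl⟩ | ⟨i, rfl⟩)
      · exact ⟨(x, i), rfl⟩
      · exact ⟨(y, i), Sym2.eq_swap⟩
    · rintro ⟨⟨z, i⟩, h⟩
      simp only [ed, Sym2.eq_iff] at h
      rcases h with ⟨h1, h2⟩ | ⟨h1, h2⟩
      · left; exact ⟨i, by rw [← h2, h1]⟩
      · right; exact ⟨i, by rw [← h2, h1]⟩

/-! ## The coupling -/

/-- open edges for the labels `ω` at level `p` -/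
def opn {d : ℕ} (p : ℝ) (ω : ((Fin d → ℤ) × Fin d) → unitInterval) : Set (Sym2 (Fin d → ℤ)) :=
  {e | ∃ q, ed q = e ∧ (ω q : ℝ) < p}

theorem fromRel_eq {d : ℕ} (p : ℝ) (ω : ((Fin d → ℤ) × Fin d) → unitInterval) :
    SimpleGraph.fromRel (fun x y : Fin d → ℤ =>
      ∃ i : Fin d, y = x + Pi.single i (1 : ℤ) ∧ ((ω (x, i) : ℝ) < p)) =
    SimpleGraph.fromEdgeSet (opn p ω) := by
  ext x y
  simp only [SimpleGraph.fromRel_adj, SimpleGraph.fromEdgeSet_adj, opn, Set.mem_ofPred_eq, ed,
    Prod.exists, Sym2.eq_iff]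
  constructor
  · rintro ⟨hne, ⟨i, rfl, hp⟩ | ⟨i, rfl, hp⟩⟩
    · exact ⟨⟨x, i, Or.inl ⟨rfl, rfl⟩, hp⟩, hne⟩
    · exact ⟨⟨y, i, Or.inr ⟨rfl, rfl⟩, hp⟩, hne⟩
  · rintro ⟨⟨z, i, h | h, hp⟩, hne⟩
    · obtain ⟨rfl, rfl⟩ := h
      exact ⟨hne, Or.inl ⟨i, rfl, hp⟩⟩
    · obtain ⟨rfl, rfl⟩ := h
      exact ⟨hne, Or.inr ⟨i, rfl, hp⟩⟩

theorem meas_lt (p : ℝ) : MeasurableSet {t : unitInterval | (t : ℝ) < p} :=
  measurableSet_lt measurable_subtype_coe measurable_const

theorem vol_lt (p : unitInterval) :
    (volume : Measure unitInterval) {t : unitInterval | (t : ℝ) < (p : ℝ)} =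
      ((unitInterval.toNNReal p : NNReal) : ENNReal) := by
  have : {t : unitInterval | (t : ℝ) < (p : ℝ)} = Set.Iio p := by
    ext t; simp [Subtype.coe_lt_coe]
  rw [this, unitInterval.volume_Iio]
  rw [← ENNReal.ofReal_coe_nnreal]
  rfl

theorem vol_prop (p : unitInterval) (A : Set Prop) :
    (volume : Measure unitInterval) {t : unitInterval | ((t : ℝ) < (p : ℝ)) ∈ A} =
      ((unitInterval.toNNReal p) • Measure.dirac True +
        (unitInterval.toNNReal (unitInterval.symm p)) • Measure.dirac False : Measure Prop) A := by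
  have hsum : ((unitInterval.toNNReal p : NNReal) : ENNReal) +
      ((unitInterval.toNNReal (unitInterval.symm p) : NNReal) : ENNReal) = 1 := by
    rw [← ENNReal.coe_add]
    have : unitInterval.toNNReal p + unitInterval.toNNReal (unitInterval.symm p) = 1 := by
      ext
      simp
    rw [this]; rfl
  have hge : (volume : Measure unitInterval) {t : unitInterval | ¬ ((t : ℝ) < (p : ℝ))} =
      ((unitInterval.toNNReal (unitInterval.symm p) : NNReal) : ENNReal) := by
    have h1 : {t : unitInterval | ¬ ((t : ℝ) < (p : ℝ))} =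
        {t : unitInterval | ((t : ℝ) < (p : ℝ))}ᶜ := rfl
    rw [h1, prob_compl_eq_one_sub (meas_lt _), vol_lt, ← hsum]
    exact ENNReal.add_sub_cancel_left ENNReal.coe_ne_top
  rw [Measure.add_apply, Measure.smul_apply, Measure.smul_apply, Measure.dirac_apply,
    Measure.dirac_apply]
  have key : ∀ t : unitInterval, (((t : ℝ) < (p : ℝ)) ∈ A) ↔
      (((t : ℝ) < (p : ℝ)) ∧ True ∈ A) ∨ ((¬ (t : ℝ) < (p : ℝ)) ∧ False ∈ A) := by
    intro t
    by_cases h : (t : ℝ) < p
    · have e : ((t : ℝ) < (p : ℝ)) = True := eq_true h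
      rw [e]; simp
    · have e : ((t : ℝ) < (p : ℝ)) = False := eq_false h
      rw [e]; simp
  have hset : {t : unitInterval | ((t : ℝ) < (p : ℝ)) ∈ A} = {t : unitInterval |
      (((t : ℝ) < (p : ℝ)) ∧ True ∈ A) ∨ ((¬ (t : ℝ) < (p : ℝ)) ∧ False ∈ A)} :=
    Set.ext fun t => key t
  rw [hset]
  by_cases hT : True ∈ A <;> by_cases hF : False ∈ A
  · have h : {t : unitInterval | (((t : ℝ) < (p : ℝ)) ∧ True ∈ A) ∨
        ((¬ (t : ℝ) < (p : ℝ)) ∧ False ∈ A)} = Set.univ := by
      ext t
      simp only [hT, hF, and_true, Set.mem_ofPred_eq, Set.mem_univ, iff_true]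
      exact em _
    rw [h, measure_univ]
    simp only [hT, hF, Set.indicator_of_mem, Pi.one_apply, ENNReal.smul_def, smul_eq_mul, mul_one]
    exact hsum.symm
  · have h : {t : unitInterval | (((t : ℝ) < (p : ℝ)) ∧ True ∈ A) ∨
        ((¬ (t : ℝ) < (p : ℝ)) ∧ False ∈ A)} = {t : unitInterval | (t : ℝ) < p} := by
      ext t
      simp only [hT, hF, and_true, and_false, or_false, Set.mem_ofPred_eq]
    rw [h, vol_lt]
    simp [hT, hF, ENNReal.smul_def]
  · have h : {t : unitInterval | (((t : ℝ) < (p : ℝ)) ∧ True ∈ A) ∨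
        ((¬ (t : ℝ) < (p : ℝ)) ∧ False ∈ A)} = {t : unitInterval | ¬ (t : ℝ) < p} := by
      ext t
      simp only [hT, hF, and_true, and_false, false_or, Set.mem_ofPred_eq]
    rw [h, hge]
    simp [hT, hF, ENNReal.smul_def]
  · have h : {t : unitInterval | (((t : ℝ) < (p : ℝ)) ∧ True ∈ A) ∨
        ((¬ (t : ℝ) < (p : ℝ)) ∧ False ∈ A)} = ∅ := by
      ext t
      simp only [hT, hF, and_false, or_false, Set.mem_ofPred_eq, Set.mem_empty_iff_false]
    rw [h, measure_empty]
    simp [hT, hF]

theorem mem_opn {d : ℕ} (p : ℝ) (ω : ((Fin d → ℤ) × Fin d) → unitInterval)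
    (q : (Fin d → ℤ) × Fin d) : ed q ∈ opn p ω ↔ (ω q : ℝ) < p := by
  constructor
  · rintro ⟨q', h, h'⟩
    rwa [ed_inj h] at h'
  · intro h
    exact ⟨q, rfl, h⟩

theorem meas_opn {d : ℕ} (p : ℝ) : Measurable (opn (d := d) p) := by
  rw [measurable_set_iff]
  intro e
  by_cases he : ∃ q, ed q = e
  · obtain ⟨q, rfl⟩ := he
    have : (fun ω : ((Fin d → ℤ) × Fin d) → unitInterval => ed q ∈ opn p ω) =
        fun ω => (ω q : ℝ) < p := by
      funext ω; exact propext (mem_opn p ω q)
    rw [this]
    have h2 : Measurable fun r : unitInterval => ((r : ℝ) < p) :=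
      measurableSet_setOfPred.1 (meas_lt p)
    exact h2.comp (measurable_pi_apply q)
  · have : (fun ω : ((Fin d → ℤ) × Fin d) → unitInterval => e ∈ opn p ω) = fun _ => False := by
      funext ω
      refine propext ⟨?_, False.elim⟩
      rintro ⟨q, hq, -⟩
      exact he ⟨q, hq⟩
    rw [this]
    exact measurable_const

theorem law (d : ℕ) (p : unitInterval) :
    Measure.map (opn (d := d) (p : ℝ))
      (Measure.infinitePi fun _ : (Fin d → ℤ) × Fin d => (volume : Measure unitInterval)) =
      setBernoulli (lat d).edgeSet p := by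
  classical
  set μ := Measure.infinitePi fun _ : (Fin d → ℤ) × Fin d => (volume : Measure unitInterval)
    with hμ
  set Ψ : (((Fin d → ℤ) × Fin d) → unitInterval) → (Sym2 (Fin d → ℤ) → Prop) :=
    fun ω e => e ∈ opn (p : ℝ) ω with hΨ
  have hΨm : Measurable Ψ := by
    rw [measurable_pi_iff]
    intro e
    exact (measurable_set_iff.1 (meas_opn (d := d) (p : ℝ))) e
  have hcomp : opn (d := d) (p : ℝ) = (fun q : Sym2 (Fin d → ℤ) → Prop => {i | q i}) ∘ Ψ := by
    funext ω; rfl
  have hset : Measurable (fun q : Sym2 (Fin d → ℤ) → Prop => {i | q i}) := by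
    rw [measurable_set_iff]
    intro e
    exact measurable_pi_apply e
  rw [setBernoulli_eq_map, hcomp, ← Measure.map_map hset hΨm]
  congr 1
  refine Measure.eq_infinitePi _ fun s t ht => ?_
  rw [Measure.map_apply hΨm (MeasurableSet.pi s.countable_toSet fun e _ => ht e)]
  -- the factors
  have hedge : ∀ q, ((unitInterval.toNNReal p) • Measure.dirac (ed q ∈ (lat d).edgeSet) +
        (unitInterval.toNNReal (unitInterval.symm p)) • Measure.dirac False : Measure Prop)
          (t (ed q)) =
      (volume : Measure unitInterval) {r : unitInterval | ((r : ℝ) < (p : ℝ)) ∈ t (ed q)} := by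
    intro q
    have h1 : (ed q ∈ (lat d).edgeSet) = True := eq_true ((mem_edge_iff _).2 ⟨q, rfl⟩)
    rw [h1, vol_prop]
  have hnon : ∀ e, (¬ ∃ q, ed q = e) →
      ((unitInterval.toNNReal p) • Measure.dirac (e ∈ (lat d).edgeSet) +
        (unitInterval.toNNReal (unitInterval.symm p)) • Measure.dirac False : Measure Prop)
          (t e) = if False ∈ t e then 1 else 0 := by
    intro e he
    have h1 : (e ∈ (lat d).edgeSet) = False := eq_false (fun h => he ((mem_edge_iff _).1 h))
    have hsum : unitInterval.toNNReal p + unitInterval.toNNReal (unitInterval.symm p) = 1 := by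
      ext
      simp
    rw [h1, ← add_smul, hsum, one_smul, Measure.dirac_apply]
    by_cases h : False ∈ t e <;> simp [h]
  by_cases hbad : ∃ e ∈ s, (¬ ∃ q, ed q = e) ∧ False ∉ t e
  · obtain ⟨e, hes, he, hF⟩ := hbad
    have h0 : Ψ ⁻¹' (Set.pi (↑s) t) = ∅ := by
      ext ω
      simp only [Set.mem_preimage, Set.mem_pi, Set.mem_empty_iff_false, iff_false]
      intro h
      have h2 := h e hes
      have h3 : Ψ ω e = False := eq_false (by rintro ⟨q, hq, -⟩; exact he ⟨q, hq⟩)
      rw [h3] at h2
      exact hF h2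
    rw [h0, measure_empty]
    symm
    apply Finset.prod_eq_zero hes
    rw [hnon e he, if_neg hF]
  · push Not at hbad
    set s₀ : Finset ((Fin d → ℤ) × Fin d) := s.preimage ed ed_inj.injOn with hs₀
    have h0 : Ψ ⁻¹' (Set.pi (↑s) t) =
        Set.pi (↑s₀) (fun q => {r : unitInterval | ((r : ℝ) < (p : ℝ)) ∈ t (ed q)}) := by
      ext ω
      simp only [Set.mem_preimage, Set.mem_pi, hs₀, Finset.coe_preimage, Finset.mem_coe]
      constructor
      · intro h q hq
        have h2 := h (ed q) hq
        have h3 : Ψ ω (ed q) = ((ω q : ℝ) < (p : ℝ)) := propext (mem_opn _ _ _)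
        rw [h3] at h2
        exact h2
      · intro h e he
        by_cases hq : ∃ q, ed q = e
        · obtain ⟨q, rfl⟩ := hq
          have h3 : Ψ ω (ed q) = ((ω q : ℝ) < (p : ℝ)) := propext (mem_opn _ _ _)
          rw [h3]
          exact h q he
        · have h3 : Ψ ω e = False := eq_false (by rintro ⟨q, hq', -⟩; exact hq ⟨q, hq'⟩)
          rw [h3]
          exact hbad e he (by push Not at hq; exact hq)
    rw [h0, hμ, Measure.infinitePi_pi]
    · rw [← Finset.prod_subset (Finset.filter_subset (fun e => ∃ q, ed q = e) s)]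
      · rw [Finset.prod_congr rfl fun q _ => (hedge q).symm]
        have hp := Finset.prod_preimage' ed s ed_inj.injOn (fun e : Sym2 (Fin d → ℤ) =>
          ((unitInterval.toNNReal p) • Measure.dirac (e ∈ (lat d).edgeSet) +
            (unitInterval.toNNReal (unitInterval.symm p)) • Measure.dirac False : Measure Prop)
              (t e))
        refine hp.trans (Finset.prod_congr ?_ fun _ _ => rfl)
        ext e
        simp
      · intro e he hne
        have hq : ¬ ∃ q, ed q = e := by
          intro hq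
          exact hne (Finset.mem_filter.2 ⟨he, hq⟩)
        rw [hnon e hq, if_pos (hbad e he (by push Not at hq; exact hq))]
    · intro q _
      have : MeasurableSet {r : unitInterval | ((r : ℝ) < (p : ℝ))} := meas_lt _
      have h2 : Measurable fun r : unitInterval => ((r : ℝ) < (p : ℝ)) :=
        measurableSet_setOfPred.1 this
      exact h2 (ht (ed q))

/-- events of the open graph have the same probability for both descriptions -/
theorem law_apply {d : ℕ} (p : unitInterval) {A : Set (Set (Sym2 (Fin d → ℤ)))}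
    (hA : MeasurableSet A) :
    setBernoulli (lat d).edgeSet p A =
      (Measure.infinitePi fun _ : (Fin d → ℤ) × Fin d => (volume : Measure unitInterval))
        {ω | opn (p : ℝ) ω ∈ A} := by
  rw [← law, Measure.map_apply (meas_opn _) hA]
  rfl

end Pool.OWN.E167
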