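import Pool.Agent.Helper63.OWN.E167

/-!
# Own form of the theorem on the intrinsic two-point function (MP_e167eb)
-/

set_option autoImplicit false
open MeasureTheory Filter Topology ProbabilityTheory

namespace Pool.OWN.E167

/-- Bernoulli bond percolation on `Z^d`: the law of the random set of open edges, every edge of
the nearest neighbour graph is open with probability `p`, independently -/
noncomputable def perc (d : ℕ) (p : unitInterval) : Measure (Set (Sym2 (Fin d → ℤ))) :=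
  setBernoulli (lat d).edgeSet p

/-- the critical point: the supremum of the `p` for which the cluster of the origin is finite
almost surely -/
noncomputable def pcrit (d : ℕ) : unitInterval :=
  sSup {p : unitInterval | perc d p {η : Set (Sym2 (Fin d → ℤ)) |
    {x : Fin d → ℤ | (SimpleGraph.fromEdgeSet η).Reachable 0 x}.Infinite} = 0}

/-- intrinsic-distance two-point function: critical probability that `x` is in the cluster of `0`
at graph distance `n` -/
noncomputable def tauIn (d n : ℕ) (x : Fin d → ℤ) : ℝ :=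
  (perc d (pcrit d)).real {η : Set (Sym2 (Fin d → ℤ)) |
    (SimpleGraph.fromEdgeSet η).Reachable 0 x ∧ (SimpleGraph.fromEdgeSet η).dist 0 x = n}

/-- its Fourier transform -/
noncomputable def tauHat (d n : ℕ) (k : EuclideanSpace ℝ (Fin d)) : ℂ :=
  ∑' x : Fin d → ℤ, (tauIn d n x : ℂ) *
    Complex.exp (Complex.I * ((∑ j : Fin d, k j * (x j : ℝ) : ℝ) : ℂ))

/-- normalised Fourier transform -/
noncomputable def rhoHat (d n : ℕ) (k : EuclideanSpace ℝ (Fin d)) : ℂ :=
  tauHat d n k / tauHat d n 0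

/-- the percolation graph of the frozen statement -/
def gph (d : ℕ) (p : ℝ) (ω : ((Fin d → ℤ) × Fin d) → unitInterval) : SimpleGraph (Fin d → ℤ) :=
  SimpleGraph.fromRel (fun x y : Fin d → ℤ =>
    ∃ i : Fin d, y = x + Pi.single i (1 : ℤ) ∧ ((ω (x, i) : ℝ) < p))

/-- infinite cluster probability of the frozen statement -/
noncomputable def thR (d : ℕ) (p : ℝ) : ENNReal :=
  Measure.infinitePi (fun _ : (Fin d → ℤ) × Fin d => (volume : Measure unitInterval))
    {ω : ((Fin d → ℤ) × Fin d) → unitInterval |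
      {x : Fin d → ℤ | (gph d p ω).Reachable 0 x}.Infinite}

theorem perc_inf (d : ℕ) (p : unitInterval) :
    perc d p {η : Set (Sym2 (Fin d → ℤ)) |
      {x : Fin d → ℤ | (SimpleGraph.fromEdgeSet η).Reachable 0 x}.Infinite} = thR d p := by
  rw [perc, law_apply p (meas_inf _), thR]
  congr 1
  ext ω
  simp only [Set.mem_ofPred_eq, gph, fromRel_eq]

theorem perc_dist (d n : ℕ) (p : unitInterval) (x : Fin d → ℤ) :
    perc d p {η : Set (Sym2 (Fin d → ℤ)) |
      (SimpleGraph.fromEdgeSet η).Reachable 0 x ∧ (SimpleGraph.fromEdgeSet η).dist 0 x = n} =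
    Measure.infinitePi (fun _ : (Fin d → ℤ) × Fin d => (volume : Measure unitInterval))
      {ω : ((Fin d → ℤ) × Fin d) → unitInterval |
        (gph d p ω).Reachable 0 x ∧ (gph d p ω).dist 0 x = n} := by
  rw [perc, law_apply p (meas_dist n _ _)]
  congr 1
  ext ω
  simp only [Set.mem_ofPred_eq, gph, fromRel_eq]

theorem thR_zero (d : ℕ) : thR d 0 = 0 := by
  have hem : {ω : ((Fin d → ℤ) × Fin d) → unitInterval |
      {x : Fin d → ℤ | (gph d 0 ω).Reachable 0 x}.Infinite} = ∅ := by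
   ext ω
   simp only [Set.mem_ofPred_eq, Set.mem_empty_iff_false, iff_false, Set.not_infinite]
   have hbot : gph d 0 ω = ⊥ := by
     ext x y
     simp only [gph, SimpleGraph.fromRel_adj, SimpleGraph.bot_adj, iff_false]
     rintro ⟨-, ⟨i, -, h⟩ | ⟨i, -, h⟩⟩
     · exact absurd h (not_lt.2 (ω (x, i)).2.1)
     · exact absurd h (not_lt.2 (ω (y, i)).2.1)
   refine (Set.finite_singleton (0 : Fin d → ℤ)).subset ?_
   intro x hx
   rw [Set.mem_ofPred_eq, hbot] at hx
   simpa using (SimpleGraph.reachable_bot.1 hx).symm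
  rw [thR, hem, measure_empty]

theorem thR_big (d : ℕ) (hd : 1 ≤ d) (p : ℝ) (hp : 1 < p) : thR d p ≠ 0 := by
  have h : {ω : ((Fin d → ℤ) × Fin d) → unitInterval |
      {x : Fin d → ℤ | (gph d p ω).Reachable 0 x}.Infinite} = Set.univ := by
    ext ω
    simp only [Set.mem_ofPred_eq, Set.mem_univ, iff_true]
    have hadj : ∀ (x : Fin d → ℤ) (i : Fin d), (gph d p ω).Adj x (x + Pi.single i 1) := by
      intro x i
      rw [gph, SimpleGraph.fromRel_adj]
      refine ⟨?_, Or.inl ⟨i, rfl, lt_of_le_of_lt (ω (x, i)).2.2 hp⟩⟩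
      intro h
      exact single_ne_zero i (by simpa using h.symm)
    have hre : ∀ m : ℕ, (gph d p ω).Reachable 0 (Pi.single (⟨0, hd⟩ : Fin d) (m : ℤ)) := by
      intro m
      induction m with
      | zero => simp
      | succ m ih =>
        refine ih.trans ?_
        have h1 : (Pi.single (⟨0, hd⟩ : Fin d) ((m + 1 : ℕ) : ℤ) : Fin d → ℤ) =
            Pi.single (⟨0, hd⟩ : Fin d) (m : ℤ) + Pi.single (⟨0, hd⟩ : Fin d) 1 := by
          rw [← Pi.single_add]
          push_cast
          rfl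
        rw [h1]
        exact (hadj _ _).reachable
    refine Set.infinite_of_injective_forall_mem
      (f := fun m : ℕ => (Pi.single (⟨0, hd⟩ : Fin d) (m : ℤ) : Fin d → ℤ)) ?_ hre
    intro a b hab
    have := congrFun hab (⟨0, hd⟩ : Fin d)
    simpa using this
  rw [thR, h, measure_univ]
  exact one_ne_zero

theorem pc_eq (d : ℕ) (hd : 1 ≤ d) : ((pcrit d : unitInterval) : ℝ) = sSup {p : ℝ | thR d p = 0} := by
  have hS : {p : unitInterval | perc d p {η : Set (Sym2 (Fin d → ℤ)) |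
      {x : Fin d → ℤ | (SimpleGraph.fromEdgeSet η).Reachable 0 x}.Infinite} = 0} =
      {p : unitInterval | thR d p = 0} := by
    ext p
    simp only [Set.mem_ofPred_eq, perc_inf]
  have hne : {p : unitInterval | thR d p = 0}.Nonempty :=
    ⟨0, by simpa using thR_zero d⟩
  rw [pcrit, hS, Set.Icc.coe_sSup (zero_le_one) hne]
  have hbdd : BddAbove {p : ℝ | thR d p = 0} :=
    ⟨1, fun p hp => not_lt.1 fun h => thR_big d hd p h hp⟩
  apply le_antisymm
  · apply csSup_le_csSup hbdd (hne.image _)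
    rintro _ ⟨p, hp, rfl⟩
    exact hp
  · have hne' : {p : ℝ | thR d p = 0}.Nonempty := ⟨0, thR_zero d⟩
    apply csSup_le hne'
    intro p hp
    have hle : p ≤ 1 := not_lt.1 fun h => thR_big d hd p h hp
    have hb : BddAbove ((fun q : unitInterval => (q : ℝ)) '' {p : unitInterval | thR d p = 0}) :=
      ⟨1, by rintro _ ⟨q, -, rfl⟩; exact q.2.2⟩
    by_cases h0 : 0 ≤ p
    · exact le_csSup hb ⟨⟨p, h0, hle⟩, hp, rfl⟩
    · exact (not_le.1 h0).le.trans (le_csSup hb ⟨0, by simpa using thR_zero d, rfl⟩)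

/-- the frozen statement, as a proposition -/
def Fz : Prop :=
    ∃ d0 : ℕ, 6 < d0 ∧ ∀ d : ℕ, d0 ≤ d →
      ∀ G : ℝ → (((Fin d → ℤ) × Fin d) → unitInterval) → SimpleGraph (Fin d → ℤ),
        (∀ (p : ℝ) (ω : ((Fin d → ℤ) × Fin d) → unitInterval),
          G p ω = SimpleGraph.fromRel (fun x y : Fin d → ℤ =>
            ∃ i : Fin d, y = x + Pi.single i (1 : ℤ) ∧ ((ω (x, i) : ℝ) < p))) →
        ∀ pc : ℝ,
          pc = sSup {p : ℝ |
            Measure.infinitePi (fun _ : (Fin d → ℤ) × Fin d => (volume : Measure unitInterval))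
              {ω : ((Fin d → ℤ) × Fin d) → unitInterval |
                {x : Fin d → ℤ | (G p ω).Reachable 0 x}.Infinite} = 0} →
          ∃ A σ : ℝ, 0 < A ∧ 0 < σ ∧ ∀ k : Fin d → ℝ,
            Tendsto
              (fun n : ℕ => ∑' x : Fin d → ℤ,
                (((Measure.infinitePi
                    (fun _ : (Fin d → ℤ) × Fin d => (volume : Measure unitInterval))
                    {ω : ((Fin d → ℤ) × Fin d) → unitInterval |
                      (G pc ω).Reachable 0 x ∧ (G pc ω).dist 0 x = n}).toReal : ℝ) : ℂ) *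
                  Complex.exp (Complex.I *
                    (((∑ j : Fin d, k j * (x j : ℝ)) / Real.sqrt (n : ℝ) : ℝ) : ℂ)))
              atTop
              (𝓝 ((A : ℂ) *
                Complex.exp ((-(σ ^ 2 * (∑ j : Fin d, k j ^ 2) / (2 * (d : ℝ))) : ℝ) : ℂ)))

theorem own (h : Fz) :
    ∃ d₀ : ℕ, 6 < d₀ ∧ ∀ d : ℕ, d₀ ≤ d → ∃ s a : ℝ, 0 < s ∧ 0 < a ∧
      ∀ k : EuclideanSpace ℝ (Fin d),
        Tendsto (fun n : ℕ => tauHat d n ((Real.sqrt n)⁻¹ • k)) atTop
          (𝓝 ((a * Real.exp (-(s * ‖k‖ ^ 2 / (2 * d))) : ℝ) : ℂ)) ∧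
        Tendsto (fun n : ℕ => rhoHat d n ((Real.sqrt n)⁻¹ • k)) atTop
          (𝓝 ((Real.exp (-(s * ‖k‖ ^ 2 / (2 * d))) : ℝ) : ℂ)) := by
  obtain ⟨d0, h6, h⟩ := h
  refine ⟨d0, h6, fun d hd => ?_⟩
  have hd1 : 1 ≤ d := by omega
  obtain ⟨A, σ, hA, hσ, hk⟩ := h d hd (gph d) (fun _ _ => rfl) (pcrit d : ℝ) (pc_eq d hd1)
  have hmain : ∀ k : EuclideanSpace ℝ (Fin d),
      Tendsto (fun n : ℕ => tauHat d n ((Real.sqrt n)⁻¹ • k)) atTop
        (𝓝 ((A * Real.exp (-(σ ^ 2 * ‖k‖ ^ 2 / (2 * d))) : ℝ) : ℂ)) := by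
    intro k
    have h1 := hk (fun j => k j)
    have hn : ‖k‖ ^ 2 = ∑ j : Fin d, k j ^ 2 := by
      rw [EuclideanSpace.norm_sq_eq]
      simp
    rw [hn]
    have hv : (((A * Real.exp (-(σ ^ 2 * (∑ j : Fin d, k j ^ 2) / (2 * d))) : ℝ)) : ℂ) =
        (A : ℂ) * Complex.exp ((-(σ ^ 2 * (∑ j : Fin d, k j ^ 2) / (2 * (d : ℝ))) : ℝ) : ℂ) := by
      rw [Complex.ofReal_mul, Complex.ofReal_exp]
    rw [hv]
    refine h1.congr fun n => ?_
    rw [tauHat]
    refine tsum_congr fun x => ?_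
    congr 1
    · rw [tauIn, Measure.real, perc_dist]
    · congr 2
      rw [Finset.sum_div]
      norm_cast
      refine Finset.sum_congr rfl fun j _ => ?_
      simp only [PiLp.smul_apply, smul_eq_mul]
      rw [div_eq_mul_inv]
      ring
  have h0 := hmain 0
  have h0' : Tendsto (fun n : ℕ => tauHat d n 0) atTop (𝓝 ((A : ℝ) : ℂ)) := by
    simpa using h0
  refine ⟨σ ^ 2, A, by positivity, hA, fun k => ⟨hmain k, ?_⟩⟩
  have hdiv := (hmain k).div h0' (by exact_mod_cast hA.ne')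
  have hval : (((A * Real.exp (-(σ ^ 2 * ‖k‖ ^ 2 / (2 * d))) : ℝ) : ℂ)) / ((A : ℝ) : ℂ) =
      ((Real.exp (-(σ ^ 2 * ‖k‖ ^ 2 / (2 * d))) : ℝ) : ℂ) := by
    rw [← Complex.ofReal_div]
    congr 1
    field_simp
  rw [← hval]
  exact hdiv

end Pool.OWN.E167
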